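import Pool.Agent.Helper92.PU.St

/-!
# Project PU, module TS: splitting when there are no separated points
-/

namespace Pool.Agent.Helper26.PU

open Pool.Agent.Helper92.PU Pool.Agent.Helper92.PW
open Finset

/-- the pairing, in the reals -/
def dr (v w : ℤ × ℤ) : ℝ := (dt2 v w : ℝ)

theorem dr_eq (v w : ℤ × ℤ) : dr v w = (v.1 : ℝ) * w.2 - (v.2 : ℝ) * w.1 := by
  unfold dr dt2
  push_cast
  ring

theorem dr_self (v : ℤ × ℤ) : dr v v = 0 := by
  rw [dr_eq]
  ring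

theorem dr_symm (v w : ℤ × ℤ) : dr v w = -dr w v := by
  rw [dr_eq, dr_eq]
  ring

/-- Pluecker relation -/
theorem plk (s w w' x : ℤ × ℤ) : dr s x * dr w w' = dr w x * dr s w' - dr w' x * dr s w := by
  simp only [dr_eq]
  ring

theorem plk2 (w w' x y : ℤ × ℤ) : dr w w' * dr x y = dr w y * dr x w' - dr x w * dr w' y := by
  simp only [dr_eq]
  ring

theorem four {τ : ℝ} (h0 : 0 < τ) (h1 : τ ≤ 1 / 2) : 2 * τ ^ 4 ≤ τ ^ 3 := by
  have : 2 * τ ^ 4 = τ ^ 3 * (2 * τ) := by ring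
  rw [this]
  exact mul_le_of_le_one_right (by positivity) (by linarith)

/-- points with small coordinates -/
theorem small {τ D : ℝ} (h0 : 0 < τ) (h1 : τ ≤ 1 / 2) (hD : 0 < |D|) {x y w w' : ℤ × ℤ}
    (hxy : dr x y = D) (a1 : |dr w y| < τ ^ 2 * |D|) (b1 : |dr x w| < τ ^ 2 * |D|)
    (a2 : |dr w' y| < τ ^ 2 * |D|) (b2 : |dr x w'| < τ ^ 2 * |D|) :
    |dr w w'| ≤ τ ^ 3 * |D| := by
  have e := plk2 w w' x y
  rw [hxy] at e
  have h2 : |dr w w'| * |D| ≤ (2 * τ ^ 4) * |D| * |D| := by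
    rw [← abs_mul, e]
    calc |dr w y * dr x w' - dr x w * dr w' y| ≤ |dr w y * dr x w'| + |dr x w * dr w' y| :=
          abs_sub _ _
      _ = |dr w y| * |dr x w'| + |dr x w| * |dr w' y| := by rw [abs_mul, abs_mul]
      _ ≤ (τ ^ 2 * |D|) * (τ ^ 2 * |D|) + (τ ^ 2 * |D|) * (τ ^ 2 * |D|) := by
          gcongr
      _ = (2 * τ ^ 4) * |D| * |D| := by ring
  have h3 : |dr w w'| ≤ (2 * τ ^ 4) * |D| := le_of_mul_le_mul_right h2 hD
  have h4 := four h0 h1
  calc |dr w w'| ≤ (2 * τ ^ 4) * |D| := h3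
    _ ≤ τ ^ 3 * |D| := by gcongr

/-- points close to a direction -/
theorem close {τ D : ℝ} (h0 : 0 < τ) (h1 : τ ≤ 1 / 2) (hD : 0 < |D|) {s x w w' : ℤ × ℤ}
    (hs : τ ^ 2 * |D| ≤ |dr s x|) (a1 : |dr w x| ≤ |D|) (a2 : |dr w' x| ≤ |D|)
    (b1 : |dr w s| < τ ^ 6 * |D|) (b2 : |dr w' s| < τ ^ 6 * |D|) :
    |dr w w'| ≤ τ ^ 3 * |D| := by
  have e := plk s w w' x
  have b1' : |dr s w| ≤ τ ^ 6 * |D| := by
    rw [dr_symm, abs_neg]
    exact b1.le
  have b2' : |dr s w'| ≤ τ ^ 6 * |D| := by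
    rw [dr_symm, abs_neg]
    exact b2.le
  have h2 : |dr w w'| * (τ ^ 2 * |D|) ≤ (2 * τ ^ 4) * |D| * (τ ^ 2 * |D|) := by
    calc |dr w w'| * (τ ^ 2 * |D|) ≤ |dr w w'| * |dr s x| := by gcongr
      _ = |dr s x * dr w w'| := by rw [abs_mul, mul_comm]
      _ = |dr w x * dr s w' - dr w' x * dr s w| := by rw [e]
      _ ≤ |dr w x * dr s w'| + |dr w' x * dr s w| := abs_sub _ _
      _ = |dr w x| * |dr s w'| + |dr w' x| * |dr s w| := by rw [abs_mul, abs_mul]
      _ ≤ |D| * (τ ^ 6 * |D|) + |D| * (τ ^ 6 * |D|) := by gcongr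
      _ = (2 * τ ^ 4) * |D| * (τ ^ 2 * |D|) := by ring
  have hpos : 0 < τ ^ 2 * |D| := by positivity
  have h3 : |dr w w'| ≤ (2 * τ ^ 4) * |D| := le_of_mul_le_mul_right h2 hpos
  have h4 := four h0 h1
  calc |dr w w'| ≤ (2 * τ ^ 4) * |D| := h3
    _ ≤ τ ^ 3 * |D| := by gcongr

/-- TS. -/
theorem hTS : StTS := by
  classical
  intro d τ W w1 w2 hτ hτ1 hD0 hw1 hw2 hmax hno
  obtain ⟨D, hDdef⟩ : ∃ D : ℝ, D = dr w1 w2 := ⟨_, rfl⟩
  have hD : 0 < |D| := by
    rw [hDdef, abs_pos]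
    unfold dr
    exact_mod_cast hD0
  have hmaxr : ∀ w ∈ W, ∀ w' ∈ W, |dr w w'| ≤ |D| := by
    intro w hw w' hw'
    have := hmax w hw w' hw'
    rw [hDdef]
    unfold dr
    exact_mod_cast this
  let W0 : Finset (ℤ × ℤ) := W.filter fun w => |dr w w2| < τ ^ 2 * |D| ∧ |dr w1 w| < τ ^ 2 * |D|
  let C : Finset (ℤ × ℤ) := W.filter fun w => ¬ (|dr w w2| < τ ^ 2 * |D| ∧ |dr w1 w| < τ ^ 2 * |D|)
  let Sep : Finset (ℤ × ℤ) → Prop := fun P => ∀ v ∈ P, ∀ w ∈ P, v ≠ w → τ ^ 6 * |D| ≤ |dr v w|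
  -- a maximal separated subset
  have hne : (C.powerset.filter Sep).Nonempty := by
    refine ⟨∅, ?_⟩
    rw [mem_filter]
    refine ⟨empty_mem_powerset _, ?_⟩
    intro v hv
    exact absurd hv (notMem_empty v)
  obtain ⟨P, hP, hPmax⟩ := exists_max_image (C.powerset.filter Sep) card hne
  rw [mem_filter, mem_powerset] at hP
  obtain ⟨hPC, hPS⟩ := hP
  have hPcard : P.card ≤ d := by
    by_contra hcon
    push Not at hcon
    apply hno
    have hle : Fintype.card (Fin (d + 1)) ≤ Fintype.card P := by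
      rw [Fintype.card_fin, Fintype.card_coe]
      exact hcon
    obtain ⟨f⟩ := Function.Embedding.nonempty_of_card_le hle
    refine ⟨fun j => (f j : ℤ × ℤ), fun j => (mem_filter.1 (hPC (f j).2)).1, fun i j hij => ?_⟩
    have hn : (f i : ℤ × ℤ) ≠ (f j : ℤ × ℤ) := fun h => hij (f.injective (Subtype.ext h))
    have := hPS _ (f i).2 _ (f j).2 hn
    rw [hDdef] at this
    exact this
  have hcov : ∀ w ∈ C, ∃ s ∈ P, |dr w s| < τ ^ 6 * |D| := by
    intro w hw
    by_cases hwP : w ∈ P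
    · refine ⟨w, hwP, ?_⟩
      rw [dr_self, abs_zero]
      positivity
    by_contra hcon
    push Not at hcon
    have h1 : insert w P ∈ C.powerset.filter Sep := by
      rw [mem_filter, mem_powerset]
      refine ⟨insert_subset hw hPC, ?_⟩
      intro v hv u hu hvu
      rw [mem_insert] at hv hu
      rcases hv with rfl | hv
      · rcases hu with rfl | hu
        · exact absurd rfl hvu
        · exact hcon u hu
      · rcases hu with rfl | hu
        · rw [dr_symm, abs_neg]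
          exact hcon v hv
        · exact hPS v hv u hu hvu
    have h2 := hPmax _ h1
    rw [card_insert_of_notMem hwP] at h2
    omega
  -- enumeration of the parts
  let e := P.equivFin
  let g : Fin (d + 1) → Option (ℤ × ℤ) := fun i =>
    if h : (i : ℕ) - 1 < P.card ∧ i ≠ 0 then some (e.symm ⟨(i : ℕ) - 1, h.1⟩ : ℤ × ℤ) else none
  have hg0 : g 0 = none := by
    simp [g]
  have hgP : ∀ i s, g i = some s → s ∈ P := by
    intro i s h
    simp only [g] at h
    split_ifs at h with h1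
    have h2 := Option.some.inj h
    rw [← h2]
    exact (e.symm ⟨(i : ℕ) - 1, h1.1⟩).2
  have hgs : ∀ s ∈ P, ∃ i, g i = some s := by
    intro s hs
    have hk := (e ⟨s, hs⟩).2
    refine ⟨⟨(e ⟨s, hs⟩ : ℕ) + 1, by omega⟩, ?_⟩
    have h1 : (((⟨(e ⟨s, hs⟩ : ℕ) + 1, by omega⟩ : Fin (d + 1)) : ℕ) - 1 < P.card ∧
        (⟨(e ⟨s, hs⟩ : ℕ) + 1, by omega⟩ : Fin (d + 1)) ≠ 0) := by
      refine ⟨by simpa using hk, ?_⟩
      intro h
      have := congrArg Fin.val h
      simp at this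
    simp only [g]
    rw [dif_pos h1]
    congr 1
    have h3 : (⟨((⟨(e ⟨s, hs⟩ : ℕ) + 1, by omega⟩ : Fin (d + 1)) : ℕ) - 1, h1.1⟩ : Fin P.card) =
        e ⟨s, hs⟩ := by
      apply Fin.ext
      simp
    rw [h3, Equiv.symm_apply_apply]
  let V : Fin (d + 1) → Finset (ℤ × ℤ) := fun i =>
    match g i with
    | none => W0
    | some s => C.filter fun w => |dr w s| < τ ^ 6 * |D|
  have hVn : ∀ i, g i = none → V i = W0 := fun i h => by
    simp only [V]
    rw [h]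
  have hVs : ∀ i s, g i = some s → V i = C.filter fun w => |dr w s| < τ ^ 6 * |D| := fun i s h => by
    simp only [V]
    rw [h]
  refine ⟨V, fun i => ?_, fun w hw => ?_, fun i w hw w' hw' => ?_⟩
  · cases hgi : g i with
    | none =>
      rw [hVn i hgi]
      exact filter_subset _ _
    | some s =>
      rw [hVs i s hgi]
      exact (filter_subset _ _).trans (filter_subset _ _)
  · by_cases h : |dr w w2| < τ ^ 2 * |D| ∧ |dr w1 w| < τ ^ 2 * |D|
    · refine ⟨0, ?_⟩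
      rw [hVn 0 hg0, mem_filter]
      exact ⟨hw, h⟩
    · have hC : w ∈ C := mem_filter.2 ⟨hw, h⟩
      obtain ⟨s, hs, hws⟩ := hcov w hC
      obtain ⟨i, hi⟩ := hgs s hs
      refine ⟨i, ?_⟩
      rw [hVs i s hi, mem_filter]
      exact ⟨hC, hws⟩
  · have key : |dr w w'| ≤ τ ^ 3 * |D| := by
      cases hgi : g i with
      | none =>
        rw [hVn i hgi] at hw hw'
        obtain ⟨-, a1, b1⟩ := mem_filter.1 hw
        obtain ⟨-, a2, b2⟩ := mem_filter.1 hw'
        exact small hτ hτ1 hD hDdef.symm a1 b1 a2 b2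
      | some s =>
        rw [hVs i s hgi] at hw hw'
        obtain ⟨c1, d1⟩ := mem_filter.1 hw
        obtain ⟨c2, d2⟩ := mem_filter.1 hw'
        have hwW := (mem_filter.1 c1).1
        have hwW' := (mem_filter.1 c2).1
        have hsP := hgP i s hgi
        have hs2 := (mem_filter.1 (hPC hsP)).2
        have hsW := (mem_filter.1 (hPC hsP)).1
        rw [not_and_or, not_lt, not_lt] at hs2
        rcases hs2 with h | h
        · exact close hτ hτ1 hD h (hmaxr _ hwW _ hw2) (hmaxr _ hwW' _ hw2) d1 d2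
        · rw [dr_symm, abs_neg] at h
          exact close hτ hτ1 hD h (hmaxr _ hwW _ hw1) (hmaxr _ hwW' _ hw1) d1 d2
    rw [hDdef] at key
    exact key

end Pool.Agent.Helper26.PU
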